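import Pool.Agent.W217.BE.Stm3

/-!
Project BE, third wave: length and last step of minimal resolutions over a regular local ring.
-/

set_option autoImplicit false

namespace Pool.Agent.W413.BEREGRES

open Pool.Agent.W217.BE

section red

variable {B : Type} [CommRing B] (x : B)

/-- reduction of a vector -/
def rd {n : ℕ} (v : Fin n → B) : Fin n → B ⧸ Ideal.span {x} :=
  fun i => Ideal.Quotient.mk (Ideal.span {x}) (v i)

theorem rd_surj {n : ℕ} (v : Fin n → B ⧸ Ideal.span {x}) : ∃ w : Fin n → B, rd x w = v := by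
  choose f hf using fun i => Ideal.Quotient.mk_surjective (v i)
  exact ⟨f, funext hf⟩

theorem rd_eq {n : ℕ} {v w : Fin n → B} (h : rd x v = rd x w) : ∃ u : Fin n → B, v - w = x • u := by
  have h1 : ∀ i, ∃ c, v i - w i = x * c := by
    intro i
    have h2 := congrFun h i
    simp only [rd] at h2
    rw [Ideal.Quotient.eq, Ideal.mem_span_singleton] at h2
    exact h2
  choose u hu using h1
  exact ⟨u, funext fun i => by simpa using hu i⟩

theorem rd_sub {n : ℕ} (v w : Fin n → B) : rd x (v - w) = rd x v - rd x w := by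
  funext i
  simp [rd]

theorem rd_smul_x {n : ℕ} (v : Fin n → B) : rd x (x • v) = 0 := by
  funext i
  simp only [rd, Pi.smul_apply, smul_eq_mul, Pi.zero_apply]
  rw [Ideal.Quotient.eq_zero_iff_mem]
  exact Ideal.mul_mem_right _ _ (Ideal.mem_span_singleton_self x)

theorem rd_smul {n : ℕ} (a : B) (v : Fin n → B) :
    rd x (a • v) = (Ideal.Quotient.mk (Ideal.span {x}) a) • rd x v := by
  funext i
  simp [rd]

/-- reduction of a linear map -/
noncomputable def rl {m n : ℕ} (f : (Fin n → B) →ₗ[B] (Fin m → B)) :
    (Fin n → B ⧸ Ideal.span {x}) →ₗ[B ⧸ Ideal.span {x}] (Fin m → B ⧸ Ideal.span {x}) :=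
  ((LinearMap.toMatrix' f).map (Ideal.Quotient.mk (Ideal.span {x}))).mulVecLin

theorem rl_rd {m n : ℕ} (f : (Fin n → B) →ₗ[B] (Fin m → B)) (v : Fin n → B) :
    rl x f (rd x v) = rd x (f v) := by
  funext i
  have h1 := RingHom.map_mulVec (Ideal.Quotient.mk (Ideal.span {x})) (LinearMap.toMatrix' f) v i
  rw [LinearMap.toMatrix'_mulVec] at h1
  rw [rl, Matrix.mulVecLin_apply]
  exact h1.symm

end red

theorem pi_trivial {B : Type} [CommRing B] [Nontrivial B] {n : ℕ}
    (h : ∀ v : Fin n → B, v = 0) : n = 0 := by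
  by_contra hn
  have h1 := congrFun (h (fun _ => 1)) ⟨0, Nat.pos_of_ne_zero hn⟩
  exact one_ne_zero h1

theorem main : REGQ → REGRES := by
  intro hQ d
  induction d with
  | zero =>
    intro B _ _ hB N _ _ r dX ε hres hmin
    have hbot : IsLocalRing.maximalIdeal B = ⊥ := by
      have h1 := IsRegularLocalRing.spanFinrank_maximalIdeal (R := B)
      rw [← IsLocalRing.maximalIdeal_height_eq_ringKrullDim, hB] at h1
      have h2 : (IsLocalRing.maximalIdeal B).spanFinrank = 0 := by
        exact_mod_cast h1
      exact (Submodule.spanFinrank_eq_zero_iff_eq_bot (IsNoetherian.noetherian _)).1 h2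
    obtain ⟨hs, h0, hi⟩ := hres
    have hz : ∀ i v, dX i v = 0 := by
      intro i v
      funext j
      have := hmin i v j
      rw [hbot] at this
      simpa using this
    refine ⟨?_, ?_⟩
    · intro i hi0
      obtain ⟨j, rfl⟩ : ∃ j, i = j + 1 := ⟨i - 1, by omega⟩
      apply pi_trivial (B := B)
      intro v
      have h1 : v ∈ LinearMap.ker (dX j) := by
        rw [LinearMap.mem_ker]; exact hz j v
      rw [← hi j] at h1
      obtain ⟨w, hw⟩ := h1
      rw [← hw]
      exact hz _ w
    · rintro ⟨w, hw, -⟩ hr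
      apply hw
      obtain ⟨f, hf⟩ := hs w
      have : f = 0 := by
        funext j
        exact absurd j.2 (by omega)
      rw [← hf, this, map_zero]
  | succ d ih =>
    intro B _ _ hB N _ _ r dX ε hres hmin
    obtain ⟨x, hxm, hx0, hreg, hht⟩ := hQ B d hB
    obtain ⟨hs, h0, hi⟩ := hres
    have hx0' : ∀ {n : ℕ} (v : Fin n → B), x • v = 0 → v = 0 := by
      intro n v hv
      funext j
      exact hx0 _ (by simpa using congrFun hv j)
    have hdd : ∀ i v, dX i (dX (i + 1) v) = 0 := by
      intro i v
      have : dX (i + 1) v ∈ LinearMap.ker (dX i) := by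
        rw [← hi i]; exact ⟨v, rfl⟩
      simpa using this
    -- the maximal ideals
    have hmm : ∀ a ∈ IsLocalRing.maximalIdeal B,
        Ideal.Quotient.mk (Ideal.span {x}) a ∈
          IsLocalRing.maximalIdeal (B ⧸ Ideal.span {x}) := by
      intro a ha
      rw [IsLocalRing.mem_maximalIdeal, mem_nonunits_iff]
      intro hu
      obtain ⟨b, hb⟩ := hu.exists_right_inv
      obtain ⟨b, rfl⟩ := Ideal.Quotient.mk_surjective b
      rw [← map_mul, ← map_one (Ideal.Quotient.mk (Ideal.span {x})), Ideal.Quotient.eq,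
        Ideal.mem_span_singleton] at hb
      obtain ⟨c, hc⟩ := hb
      have h1 : (1 : B) ∈ IsLocalRing.maximalIdeal B := by
        have h2 : (1 : B) = a * b - x * c := by rw [← hc]; ring
        rw [h2]
        exact sub_mem (Ideal.mul_mem_right _ _ ha) (Ideal.mul_mem_right _ _ hxm)
      exact (Ideal.ne_top_iff_one _).1 (IsLocalRing.maximalIdeal.isMaximal B).ne_top h1
    have hmm' : ∀ a : B, Ideal.Quotient.mk (Ideal.span {x}) a ∈
          IsLocalRing.maximalIdeal (B ⧸ Ideal.span {x}) → a ∈ IsLocalRing.maximalIdeal B := by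
      intro a ha
      by_contra hcon
      rw [IsLocalRing.mem_maximalIdeal, mem_nonunits_iff, not_not] at hcon
      exact (IsLocalRing.mem_maximalIdeal _).1 ha (hcon.map _)
    have key := ih (B ⧸ Ideal.span {x}) hht
      ((Fin (r 1) → B ⧸ Ideal.span {x}) ⧸ LinearMap.range (rl x (dX 1)))
      (fun i => r (i + 1)) (fun i => rl x (dX (i + 1)))
      (Submodule.mkQ _) ⟨Submodule.mkQ_surjective _, (Submodule.ker_mkQ _).symm, ?_⟩ ?_
    · refine ⟨?_, ?_⟩
      · intro i hid
        obtain ⟨j, rfl⟩ : ∃ j, i = j + 1 := ⟨i - 1, by omega⟩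
        exact key.1 j (by omega)
      · rintro ⟨w, hw, hwm⟩
        apply key.2
        obtain ⟨f, rfl⟩ := hs w
        have h1 : x • f ∈ LinearMap.ker ε := by
          rw [LinearMap.mem_ker, map_smul]
          exact hwm x hxm
        rw [← h0] at h1
        obtain ⟨g, hg⟩ := h1
        refine ⟨Submodule.Quotient.mk (rd x g), ?_, ?_⟩
        · intro hcon
          rw [Submodule.Quotient.mk_eq_zero] at hcon
          obtain ⟨h', hh'⟩ := hcon
          obtain ⟨h, rfl⟩ := rd_surj x h'
          rw [rl_rd] at hh'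
          obtain ⟨k, hk⟩ := rd_eq x hh'
          -- dX 1 h - g = x k
          apply hw
          have h2 : dX 0 (dX 1 h - g) = x • dX 0 k := by rw [hk, map_smul]
          rw [map_sub, hdd 0 h, hg, zero_sub] at h2
          have h3 : f = dX 0 (-k) := by
            have h4 : x • (f - dX 0 (-k)) = 0 := by
              rw [smul_sub, map_neg, smul_neg, ← h2]
              simp
            exact sub_eq_zero.1 (hx0' _ h4)
          have h5 : f ∈ LinearMap.ker ε := by
            rw [← h0, h3]; exact ⟨_, rfl⟩
          simpa using h5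
        · intro y' hy'
          obtain ⟨y, rfl⟩ := Ideal.Quotient.mk_surjective y'
          have hy := hmm' y hy'
          rw [← Submodule.Quotient.mk_smul, Submodule.Quotient.mk_eq_zero, ← rd_smul]
          have h2 : y • f ∈ LinearMap.ker ε := by
            rw [LinearMap.mem_ker, map_smul]
            exact hwm y hy
          rw [← h0] at h2
          obtain ⟨k, hk⟩ := h2
          have h3 : y • g - x • k ∈ LinearMap.ker (dX 0) := by
            rw [LinearMap.mem_ker, map_sub, map_smul, map_smul, hg, hk, smul_comm, sub_self]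
          rw [← hi 0] at h3
          obtain ⟨u, hu⟩ := h3
          refine ⟨rd x u, ?_⟩
          rw [rl_rd, hu, rd_sub, rd_smul_x, sub_zero]
    · intro i
      apply le_antisymm
      · rintro _ ⟨v', rfl⟩
        obtain ⟨v, rfl⟩ := rd_surj x v'
        rw [LinearMap.mem_ker, rl_rd, rl_rd, hdd (i + 1) v]
        funext j
        simp [rd]
      · intro v' hv'
        obtain ⟨v, rfl⟩ := rd_surj x v'
        rw [LinearMap.mem_ker, rl_rd] at hv'
        have h1 : rd x (dX (i + 1) v) = rd x 0 := by
          rw [hv']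
          funext j
          simp [rd]
        obtain ⟨w, hw⟩ := rd_eq x h1
        rw [sub_zero] at hw
        have h2 : dX i w = 0 := by
          apply hx0'
          rw [← map_smul, ← hw, hdd i v]
        have h3 : w ∈ LinearMap.ker (dX i) := by simpa using h2
        rw [← hi i] at h3
        obtain ⟨w', hw'⟩ := h3
        have h4 : v - x • w' ∈ LinearMap.ker (dX (i + 1)) := by
          rw [LinearMap.mem_ker, map_sub, map_smul, hw', hw, sub_self]
        rw [← hi (i + 1)] at h4
        obtain ⟨u, hu⟩ := h4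
        refine ⟨rd x u, ?_⟩
        rw [rl_rd, hu, rd_sub, rd_smul_x, sub_zero]
    · intro i v' j
      obtain ⟨v, rfl⟩ := rd_surj x v'
      rw [rl_rd]
      exact hmm _ (hmin (i + 1) v j)

end Pool.Agent.W413.BEREGRES
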